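import Pool.Agent.N513.CE.Stm
import Pool.Agent.N169.NS.TT

/-!
CE/TEL: property (T) of `E_3` of the group algebra of a finitely generated group over a large
prime field.
-/

set_option autoImplicit false

open scoped InnerProductSpace

namespace Pool.Agent.N169.CE

open Pool.Agent.N44.NS (E3 el)
open Pool.Agent.N169.NS
open Pool.Agent.N513.CE
open Pool.Agent.Helper278.TB (HP uop uop_rep uop_mul)
open Pool.Agent.Helper455.KZ
open Pool.Agent.W661.RC (HasT)

section KT

variable {Γ : Type} [Group Γ] {K : Type} [Field K] [Fintype K]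
variable {H : Type} [NormedAddCommGroup H] [InnerProductSpace ℂ H] [CompleteSpace H]

theorem pair_est {ε : ℝ} (hε : 0 ≤ ε) (hε1 : ε ≤ 1) (hK : (Fintype.card K : ℝ)⁻¹ ≤ ε ^ 2)
    (π : Γ →* unitary (H →L[ℂ] H)) (u u' : K → Γ)
    (hu : ∀ a b, u (a + b) = u a * u b) (hu' : ∀ a b, u' (a + b) = u' a * u' b)
    (hp : HP u u') (v : H) :
    0 ≤ 2 * (⟪co (avg (uop π u)) v, co (avg (uop π u')) v⟫_ℂ).re +
      ε * (‖co (avg (uop π u)) v‖ ^ 2 + ‖co (avg (uop π u')) v‖ ^ 2) := by
  obtain ⟨z, hz, hrel, h1, h2⟩ := hp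
  refine heis_pair (uop_rep π u hu) (uop_rep π u' hu') (uop_rep π z hz) ?_ ?_ ?_
    ε hε hε1 hK v
  · intro a b x
    show (π (u a) : H →L[ℂ] H) ((π (u' b) : H →L[ℂ] H) x) = (π (u' b) : H →L[ℂ] H)
      ((π (u a) : H →L[ℂ] H) ((π (z (a * b)) : H →L[ℂ] H) x))
    rw [← uop_mul, ← uop_mul, ← uop_mul, hrel, mul_assoc]
  · intro a b x
    show (π (z a) : H →L[ℂ] H) ((π (u b) : H →L[ℂ] H) x) = (π (u b) : H →L[ℂ] H)
      ((π (z a) : H →L[ℂ] H) x)
    rw [← uop_mul, ← uop_mul, h1]
  · intro a b x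
    show (π (z a) : H →L[ℂ] H) ((π (u' b) : H →L[ℂ] H) x) = (π (u' b) : H →L[ℂ] H)
      ((π (z a) : H →L[ℂ] H) x)
    rw [← uop_mul, ← uop_mul, h2]

end KT

/-- Property (T) for groups generated by `n` lines over a field with at least `n ^ 2` elements, any
two of which form a Heisenberg pair. -/
theorem propT_lines {Γ : Type} [Group Γ] {K : Type} [Field K] [Fintype K] {n : ℕ} (hn0 : 0 < n)
    (hK : n ^ 2 ≤ Fintype.card K) (u : Fin n → K → Γ)
    (hadd : ∀ i a b, u i (a + b) = u i a * u i b)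
    (pair : ∀ i j, i ≠ j → HP (u i) (u j) ∨ HP (u j) (u i))
    (gen : Subgroup.closure {g | ∃ i t, g = u i t} = ⊤) :
    ∃ S : Finset Γ, ∃ ε : ℝ, 0 < ε ∧
      ∀ (H : Type) [NormedAddCommGroup H] [InnerProductSpace ℂ H] [CompleteSpace H]
        (ρ : Γ →* unitary (H →L[ℂ] H)),
        (∃ x : H, ‖x‖ = 1 ∧ ∀ s ∈ S, ‖(ρ s : H →L[ℂ] H) x - x‖ < ε) →
          ∃ x : H, x ≠ 0 ∧ ∀ g : Γ, (ρ g : H →L[ℂ] H) x = x := by
  classical
  have hcard : Fintype.card (Fin n) = n := Fintype.card_fin n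
  have hn1 : (1 : ℝ) ≤ n := by exact_mod_cast hn0
  have hnp : (0 : ℝ) < n := by linarith
  have he0 : (0 : ℝ) ≤ 1 / n := by positivity
  have he1 : (1 : ℝ) / n ≤ 1 := by
    rw [div_le_one hnp]
    exact hn1
  have hKe : (Fintype.card K : ℝ)⁻¹ ≤ (1 / (n : ℝ)) ^ 2 := by
    have h : ((n : ℝ)) ^ 2 ≤ Fintype.card K := by exact_mod_cast hK
    calc ((Fintype.card K : ℝ))⁻¹ ≤ ((n : ℝ) ^ 2)⁻¹ := inv_anti₀ (by positivity) h
      _ = (1 / (n : ℝ)) ^ 2 := by rw [one_div, inv_pow]
  have hce : 1 - ((n : ℝ) - 1) * (1 / n) = 1 / n := by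
    field_simp
    ring
  have hc : (0 : ℝ) < 1 - ((n : ℝ) - 1) * (1 / n) := by
    rw [hce]
    positivity
  have hc1 : 1 - ((n : ℝ) - 1) * (1 / n) ≤ 1 := by
    rw [hce]
    exact he1
  refine ⟨(Finset.univ : Finset (Fin n × K)).image (fun q => u q.1 q.2),
    thr n (1 - ((n : ℝ) - 1) * (1 / n)), thr_pos _ _ hn1 hc, ?_⟩
  intro H _ _ _ π ⟨v, hv, hsm⟩
  let Q : Fin n → H → H := fun i => co (avg (uop π (u i)))
  have hrep : ∀ i, URep (uop π (u i)) := fun i => uop_rep π _ (hadd i)
  have hQ : ∀ i, Proj (Q i) := fun i => (hrep i).avg_proj.co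
  have hpair : ∀ i j, i ≠ j → ∀ v, 0 ≤ 2 * (⟪Q i v, Q j v⟫_ℂ).re +
      (1 / n) * (‖Q i v‖ ^ 2 + ‖Q j v‖ ^ 2) := by
    intro i j hij v
    rcases pair i j hij with h | h
    · exact pair_est he0 he1 hKe π (u i) (u j) (hadd i) (hadd j) h v
    · have := pair_est he0 he1 hKe π (u j) (u i) (hadd j) (hadd i) h v
      have e : (⟪Q i v, Q j v⟫_ℂ).re = (⟪Q j v, Q i v⟫_ℂ).re := by
        rw [← inner_conj_symm, Complex.conj_re]
      rw [e, add_comm (‖Q i v‖ ^ 2)]
      exact this
  have hDE : ∀ v, (1 - ((n : ℝ) - 1) * (1 / n)) * EE Q v ≤ ‖DD Q v‖ ^ 2 := by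
    intro v
    have := DD_lower Q (1 / n) hpair v
    rwa [hcard] at this
  have hv' : ∀ i, ‖Q i v‖ ≤ thr (Fintype.card (Fin n) : ℝ) (1 - ((n : ℝ) - 1) * (1 / n)) := by
    intro i
    rw [hcard]
    refine co_avg_small v _ fun a => ?_
    exact (hsm (u i a) (Finset.mem_image.mpr ⟨(i, a), Finset.mem_univ _, rfl⟩)).le
  obtain ⟨w, hw, hwi⟩ := exists_invariant (by rw [hcard]; exact hn0) Q hQ _ hc hc1 hDE v hv hv'
  refine ⟨w, hw, ?_⟩
  let St : Subgroup Γ :=
    { carrier := {g | (π g : H →L[ℂ] H) w = w}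
      one_mem' := by simp
      mul_mem' := by
        intro a b ha hb
        show (π (a * b) : H →L[ℂ] H) w = w
        have ha' : (π a : H →L[ℂ] H) w = w := ha
        have hb' : (π b : H →L[ℂ] H) w = w := hb
        rw [uop_mul, hb', ha']
      inv_mem' := by
        intro a ha
        show (π a⁻¹ : H →L[ℂ] H) w = w
        have ha' : (π a : H →L[ℂ] H) w = w := ha
        have h1 : (π a⁻¹ : H →L[ℂ] H) ((π a : H →L[ℂ] H) w) = w := by
          rw [← uop_mul, inv_mul_cancel]; simp
        rwa [ha'] at h1 }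
  have hle : Subgroup.closure {g | ∃ i t, g = u i t} ≤ St := by
    rw [Subgroup.closure_le]
    rintro _ ⟨i, t, rfl⟩
    show (π (u i t) : H →L[ℂ] H) w = w
    have h1 : avg (uop π (u i)) w = w := by
      have : w - avg (uop π (u i)) w = 0 := hwi i
      rw [sub_eq_zero] at this
      exact this.symm
    have h3 := (hrep i).fix_avg t w
    rw [h1] at h3
    exact h3
  intro g
  rw [gen] at hle
  exact hle (Subgroup.mem_top g)

section lines

variable {K : Type} [Field K] {A : Type} [Ring A] [Algebra K A]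

/-- the lines given by positions and coefficients -/
def ln {n : ℕ} (L : Fin n → Fin 3 × A) (i : Fin n) (c : K) : E3 A :=
  eE (L i).1 ((L i).1 + 1) (q1 _) (c • (L i).2)

theorem ln_pairs {n : ℕ} (L : Fin n → Fin 3 × A) (i j : Fin n) :
    HP (ln L i : K → E3 A) (ln L j) ∨ HP (ln L j : K → E3 A) (ln L i) := by
  rcases cases3 (L i).1 (L j).1 with h | h | h
  · exact Or.inl (pair_same _ _ h _ _)
  · exact Or.inl (pair_next _ _ h _ _)
  · exact Or.inr (pair_next _ _ h _ _)

theorem ln_gen {n : ℕ} (L : Fin n → Fin 3 × A) (h0 : ∃ i, L i = (0, 1)) (h1 : ∃ i, L i = (1, 1))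
    (h2 : ∃ i, L i = (2, 1)) (T : Set A) (hT : ∀ a ∈ T, ∃ i, L i = (2, a))
    (hg : Algebra.adjoin K T = ⊤) :
    Subgroup.closure {x | ∃ (i : Fin n) (t : K), x = ln L i t} = ⊤ := by
  set S : Subgroup (E3 A) := Subgroup.closure {x | ∃ (i : Fin n) (t : K), x = ln L i t} with hS
  have hl : ∀ (i : Fin n) (t : K), ln L i t ∈ S := fun n t => Subgroup.subset_closure ⟨n, t, rfl⟩
  have hl' : ∀ (p : Fin 3) (a : A) (t : K), (∃ i, L i = (p, a)) →
      eE p (p + 1) (q1 _) (t • a) ∈ S := by
    rintro p a t ⟨i, hi⟩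
    have h := hl i t
    unfold ln at h
    have e : eE (L i).1 ((L i).1 + 1) (q1 _) (t • (L i).2) = eE p (p + 1) (q1 _) (t • a) := by
      have : ∀ z : Fin 3 × A, z = (p, a) →
          eE z.1 (z.1 + 1) (q1 _) (t • z.2) = eE p (p + 1) (q1 _) (t • a) := by
        rintro z rfl
        rfl
      exact this _ hi
    rwa [e] at h
  -- scalars
  have hc1 : ∀ (c : K), eE 0 1 (by decide) (c • (1 : A)) ∈ S ∧
      eE 1 2 (by decide) (c • (1 : A)) ∈ S ∧ eE 2 0 (by decide) (c • (1 : A)) ∈ S :=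
    fun c => ⟨hl' 0 1 c h0, hl' 1 1 c h1, hl' 2 1 c h2⟩
  have hg1 : ∀ a ∈ T, eE 2 0 (by decide) a ∈ S := by
    intro a ha
    have h := hl' 2 a 1 (hT a ha)
    rw [one_smul] at h
    exact h
  -- all positions
  have hc2 : ∀ (c : K) (i j : Fin 3) (h : i ≠ j), eE i j h (c • (1 : A)) ∈ S := by
    intro c
    obtain ⟨a1, a2, a3⟩ := hc1 c
    obtain ⟨b1, b2, b3⟩ := hc1 1
    rw [one_smul] at b1 b2 b3
    have a4 : eE 0 2 (by decide) (c • (1 : A)) ∈ S := by
      have := mem_mul S (i := 0) (j := 1) (k := 2) (by decide) (by decide) (by decide) a1 b2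
      rwa [mul_one] at this
    have a5 : eE 1 0 (by decide) (c • (1 : A)) ∈ S := by
      have := mem_mul S (i := 1) (j := 2) (k := 0) (by decide) (by decide) (by decide) a2 b3
      rwa [mul_one] at this
    have a6 : eE 2 1 (by decide) (c • (1 : A)) ∈ S := by
      have := mem_mul S (i := 2) (j := 0) (k := 1) (by decide) (by decide) (by decide) a3 b1
      rwa [mul_one] at this
    intro i j h
    fin_cases i <;> fin_cases j
    · exact absurd rfl h
    · exact a1
    · exact a4
    · exact a5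
    · exact absurd rfl h
    · exact a2
    · exact a3
    · exact a6
    · exact absurd rfl h
  have hone : ∀ (i j : Fin 3) (h : i ≠ j), eE i j h (1 : A) ∈ S := by
    intro i j h
    have := hc2 1 i j h
    rwa [one_smul] at this
  have hg2 : ∀ a ∈ T, ∀ (i j : Fin 3) (h : i ≠ j), eE i j h a ∈ S := by
    intro a ha
    have a1 := hg1 a ha
    have a2 : eE 2 1 (by decide) a ∈ S := by
      have := mem_mul S (i := 2) (j := 0) (k := 1) (by decide) (by decide) (by decide) a1
        (hone 0 1 (by decide))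
      rwa [mul_one] at this
    have a3 : eE 1 0 (by decide) a ∈ S := by
      have := mem_mul S (i := 1) (j := 2) (k := 0) (by decide) (by decide) (by decide)
        (hone 1 2 (by decide)) a1
      rwa [one_mul] at this
    have a4 : eE 0 1 (by decide) a ∈ S := by
      have := mem_mul S (i := 0) (j := 2) (k := 1) (by decide) (by decide) (by decide)
        (hone 0 2 (by decide)) a2
      rwa [one_mul] at this
    have a5 : eE 1 2 (by decide) a ∈ S := by
      have := mem_mul S (i := 1) (j := 0) (k := 2) (by decide) (by decide) (by decide) a3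
        (hone 0 2 (by decide))
      rwa [mul_one] at this
    have a6 : eE 0 2 (by decide) a ∈ S := by
      have := mem_mul S (i := 0) (j := 1) (k := 2) (by decide) (by decide) (by decide) a4
        (hone 1 2 (by decide))
      rwa [mul_one] at this
    intro i j h
    fin_cases i <;> fin_cases j
    · exact absurd rfl h
    · exact a4
    · exact a6
    · exact a3
    · exact absurd rfl h
    · exact a5
    · exact a1
    · exact a2
    · exact absurd rfl h
  have hall : ∀ a : A, ∀ (i j : Fin 3) (h : i ≠ j), eE i j h a ∈ S := by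
    intro a
    have ha : a ∈ Algebra.adjoin K T := by
      rw [hg]
      exact Algebra.mem_top
    induction ha using Algebra.adjoin_induction with
    | mem x hx => exact hg2 x hx
    | algebraMap r =>
      intro i j h
      have := hc2 r i j h
      rwa [Algebra.smul_def, mul_one] at this
    | add x y _ _ hx hy =>
      intro i j h
      rw [eE_add]
      exact mul_mem (hx i j h) (hy i j h)
    | mul x y _ _ hx hy =>
      intro i j h
      obtain ⟨l, hil, hlj⟩ := third i j
      exact mem_mul S hil hlj h (hx i l hil) (hy l j hlj)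
  rw [eq_top_iff]
  rintro ⟨x, hx⟩ -
  refine Subgroup.closure_induction (p := fun x hx => (⟨x, hx⟩ : E3 A) ∈ S) ?_ ?_ ?_ ?_ hx
  · rintro x ⟨i, j, h, a, rfl⟩
    exact hall a i j h
  · exact one_mem _
  · intro x y hx hy h1 h2
    exact mul_mem h1 h2
  · intro x hx h1
    exact inv_mem h1

end lines

/-- the group algebra is generated by the generators of the group and their inverses -/
theorem adj (K : Type) [Field K] {X : Type} [Group X] (S : Set X)
    (hS : Subgroup.closure S = ⊤) :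
    Algebra.adjoin K ((fun x => MonoidAlgebra.of K X x) '' (S ∪ S⁻¹)) = ⊤ := by
  set B := Algebra.adjoin K ((fun x => MonoidAlgebra.of K X x) '' (S ∪ S⁻¹)) with hB
  have hin : ∀ x ∈ S, MonoidAlgebra.of K X x ∈ B := fun x hx =>
    Algebra.subset_adjoin ⟨x, Or.inl hx, rfl⟩
  have hin' : ∀ x ∈ S, MonoidAlgebra.of K X x⁻¹ ∈ B := fun x hx =>
    Algebra.subset_adjoin ⟨x⁻¹, Or.inr (by simpa using hx), rfl⟩
  let P : Subgroup X :=
    { carrier := {x | MonoidAlgebra.of K X x ∈ B ∧ MonoidAlgebra.of K X x⁻¹ ∈ B}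
      one_mem' := by
        constructor
        · rw [map_one]
          exact one_mem _
        · rw [inv_one, map_one]
          exact one_mem _
      mul_mem' := by
        rintro a b ⟨ha, ha'⟩ ⟨hb, hb'⟩
        constructor
        · rw [map_mul]
          exact mul_mem ha hb
        · rw [mul_inv_rev, map_mul]
          exact mul_mem hb' ha'
      inv_mem' := by
        rintro a ⟨ha, ha'⟩
        refine ⟨ha', ?_⟩
        rw [inv_inv]
        exact ha }
  have hP : P = ⊤ := by
    rw [eq_top_iff, ← hS, Subgroup.closure_le]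
    intro x hx
    exact ⟨hin x hx, hin' x hx⟩
  rw [eq_top_iff]
  intro f _
  induction f using MonoidAlgebra.induction_on with
  | of g =>
    have : g ∈ P := by
      rw [hP]
      exact Subgroup.mem_top g
    exact this.1
  | add f g hf hg => exact add_mem (hf trivial) (hg trivial)
  | smul r f hf => exact Subalgebra.smul_mem _ (hf trivial) r

theorem t_TEL : S_TEL := by
  classical
  intro X _ hX
  obtain ⟨S, hS⟩ := hX.out
  obtain ⟨q, hq, hqp⟩ := Nat.exists_infinite_primes ((2 * S.card + 3) ^ 2)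
  have : Fact q.Prime := ⟨hqp⟩
  refine ⟨q, hqp, ?_⟩
  have hadj := adj (ZMod q) (S : Set X) hS
  let T : Finset X := S ∪ S.image (fun x => x⁻¹)
  have hTc : T.card ≤ 2 * S.card := by
    have h1 : T.card ≤ S.card + (S.image (fun x => x⁻¹)).card := Finset.card_union_le _ _
    have h2 : (S.image (fun x => x⁻¹)).card ≤ S.card := Finset.card_image_le
    omega
  let L : Fin (3 + T.card) → Fin 3 × MonoidAlgebra (ZMod q) X :=
    Fin.append (![(0, 1), (1, 1), (2, 1)])
      (fun i => (2, MonoidAlgebra.of (ZMod q) X (T.equivFin.symm i : X)))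
  have hgen := ln_gen (K := ZMod q) L ⟨Fin.castAdd _ 0, by simp [L]⟩ ⟨Fin.castAdd _ 1, by simp [L]⟩
    ⟨Fin.castAdd _ 2, by simp [L]⟩ _ (by
      rintro _ ⟨x, hx, rfl⟩
      have hxT : x ∈ T := by
        rcases hx with hx | hx
        · exact Finset.mem_union_left _ hx
        · refine Finset.mem_union_right _ (Finset.mem_image.2 ⟨x⁻¹, ?_, inv_inv x⟩)
          exact hx
      refine ⟨Fin.natAdd 3 (T.equivFin ⟨x, hxT⟩), ?_⟩
      simp [L]) hadj
  have hcard : (3 + T.card) ^ 2 ≤ Fintype.card (ZMod q) := by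
    rw [ZMod.card]
    refine le_trans (Nat.pow_le_pow_left ?_ 2) hq
    omega
  obtain ⟨S', ε, hε, hT⟩ := propT_lines (Γ := E3 (MonoidAlgebra (ZMod q) X)) (n := 3 + T.card)
    (by omega) hcard (ln L) (fun n a b => by unfold ln; rw [add_smul, eE_add])
    (fun m n _ => ln_pairs L m n) hgen
  intro H _ _ _ π hπ
  exact hT H π (hπ S' ε hε)

end Pool.Agent.N169.CE
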